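import Mathlib

/-!
The least number m(n) of transformation matrices and transposed transformation matrices whose
Boolean sum dominates the matrix of a linear order on n points is
2n + 1 - floor(sqrt(n^2 + (n+1)^2)).
-/

namespace Pool.Agent.Results.MP_88b6d1_co.ExactValue

open Finset

/-- `M` is the matrix of a map `f : [n] → [n]`: `M i j` is one exactly when `f i = j`. -/
def IsTransformation {n : ℕ} (M : Matrix (Fin n) (Fin n) Bool) : Prop :=
  ∃ f : Fin n → Fin n, ∀ i j, M i j = true ↔ f i = j

/-- `k` matrices, each a transformation matrix or a transposed transformation matrix, suffice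
to cover the ones `i ≤ j` of the matrix of the linear order on `n` points. -/
def Covers (n k : ℕ) : Prop :=
  ∃ A : Fin k → Matrix (Fin n) (Fin n) Bool,
    (∀ t, IsTransformation (A t) ∨ IsTransformation (A t).transpose) ∧
      ∀ i j, i ≤ j → ∃ t, A t i j = true

/-! ### Counting -/

theorem tri (m : ℕ) :
    ((range m ×ˢ range m).filter fun p => p.1 ≤ p.2).card * 2 = m * (m + 1) := by
  have h : ((range m ×ˢ range m).filter fun p => p.1 ≤ p.2).card = ∑ j ∈ range m, (j + 1) := by
    have : ((range m ×ˢ range m).filter fun p => p.1 ≤ p.2).card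
        = ((range m).sigma fun j => range (j + 1)).card := by
      apply Finset.card_bij (fun p _ => (⟨p.2, p.1⟩ : Σ _ : ℕ, ℕ))
      · intro p hp
        simp only [mem_filter, mem_product, mem_range] at hp
        simp only [mem_sigma, mem_range]
        omega
      · rintro ⟨p, p'⟩ _ ⟨q, q'⟩ _ h
        simp only [Sigma.mk.injEq, heq_eq_eq] at h
        rw [h.1, h.2]
      · rintro ⟨x, y⟩ hq
        simp only [mem_sigma, mem_range] at hq
        refine ⟨(y, x), ?_, rfl⟩
        simp only [mem_filter, mem_product, mem_range]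
        omega
    rw [this, card_sigma]
    simp
  rw [h, Finset.sum_add_distrib, Finset.sum_const, card_range, smul_eq_mul, mul_one, add_mul,
    Finset.sum_range_id_mul_two]
  rcases m with _ | m
  · rfl
  · simp only [Nat.add_sub_cancel]; ring

theorem tri_fin (n : ℕ) :
    ((univ : Finset (Fin n × Fin n)).filter fun p => p.1 ≤ p.2).card * 2 = n * (n + 1) := by
  rw [← tri n]
  congr 1
  apply Finset.card_bij (fun p _ => ((p.1 : ℕ), (p.2 : ℕ)))
  · intro p hp
    simp only [mem_filter, mem_univ, true_and] at hp
    simp only [mem_filter, mem_product, mem_range]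
    exact ⟨⟨p.1.2, p.2.2⟩, hp⟩
  · intro p _ q _ h
    simp only [Prod.mk.injEq] at h
    exact Prod.ext (Fin.ext h.1) (Fin.ext h.2)
  · intro q hq
    simp only [mem_filter, mem_product, mem_range] at hq
    exact ⟨(⟨q.1, hq.1.1⟩, ⟨q.2, hq.1.2⟩), by simpa using hq.2, rfl⟩

/-- ones with a large row index -/
theorem low_card (n k : ℕ) :
    ((univ : Finset (Fin n × Fin n)).filter fun p => p.1 ≤ p.2 ∧ k ≤ (p.1 : ℕ)).card * 2
      ≤ (n - k) * (n - k + 1) := by
  rw [← tri (n - k)]
  gcongr ?_ * 2
  apply Finset.card_le_card_of_injOn (fun p => ((p.1 : ℕ) - k, (p.2 : ℕ) - k))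
  · intro p hp
    simp only [coe_filter, mem_univ, true_and, Set.mem_ofPred_eq] at hp
    simp only [coe_filter, mem_product, mem_range, Set.mem_ofPred_eq]
    have h1 := p.1.2
    have h2 := p.2.2
    have h3 : (p.1 : ℕ) ≤ p.2 := hp.1
    omega
  · intro p hp q hq h
    simp only [coe_filter, mem_univ, true_and, Set.mem_ofPred_eq] at hp hq
    simp only [Prod.mk.injEq] at h
    have h3 : (p.1 : ℕ) ≤ p.2 := hp.1
    have h4 : (q.1 : ℕ) ≤ q.2 := hq.1
    apply Prod.ext
    · apply Fin.ext; omega
    · apply Fin.ext; omega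

/-- ones with a small column index -/
theorem left_card (n k : ℕ) :
    ((univ : Finset (Fin n × Fin n)).filter fun p => p.1 ≤ p.2 ∧ (p.2 : ℕ) < n - k).card * 2
      ≤ (n - k) * (n - k + 1) := by
  rw [← tri (n - k)]
  gcongr ?_ * 2
  apply Finset.card_le_card_of_injOn (fun p => ((p.1 : ℕ), (p.2 : ℕ)))
  · intro p hp
    simp only [coe_filter, mem_univ, true_and, Set.mem_ofPred_eq] at hp
    simp only [coe_filter, mem_product, mem_range, Set.mem_ofPred_eq]
    have h3 : (p.1 : ℕ) ≤ p.2 := hp.1
    omega
  · intro p hp q hq h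
    simp only [Prod.mk.injEq] at h
    exact Prod.ext (Fin.ext h.1) (Fin.ext h.2)

theorem fin_lt_card (n k : ℕ) (hk : k ≤ n) :
    ((univ : Finset (Fin n)).filter fun i : Fin n => (i : ℕ) < k).card ≤ k := by
  calc _ ≤ (range k).card := by
        apply Finset.card_le_card_of_injOn (fun i : Fin n => (i : ℕ))
        · intro i hi
          simp only [coe_filter, mem_univ, true_and, Set.mem_ofPred_eq] at hi
          simpa using hi
        · intro i _ j _ h; exact Fin.ext h
    _ = k := card_range k

theorem fin_ge_card (n k : ℕ) (hk : k ≤ n) :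
    ((univ : Finset (Fin n)).filter fun i : Fin n => n - k ≤ (i : ℕ)).card ≤ k := by
  calc _ ≤ (range k).card := by
        apply Finset.card_le_card_of_injOn (fun i : Fin n => (i : ℕ) - (n - k))
        · intro i hi
          simp only [coe_filter, mem_univ, true_and, Set.mem_ofPred_eq] at hi
          have := i.2
          simp only [coe_range, Set.mem_Iio]
          omega
        · intro i hi j hj h
          simp only [coe_filter, mem_univ, true_and, Set.mem_ofPred_eq] at hi hj
          simp only at h
          apply Fin.ext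
          omega
    _ = k := card_range k

/-- the counting bound, for every `k ≤ n` -/
theorem lower_aux (n m k : ℕ) (hk : k ≤ n) (h : Covers n m) :
    n * (n + 1) ≤ 2 * (m * k) + 2 * ((n - k) * (n - k + 1)) := by
  classical
  obtain ⟨A, hA, hcov⟩ := h
  set D : Finset (Fin n × Fin n) := univ.filter fun p =>
    p.1 ≤ p.2 ∧ (p.1 : ℕ) < k ∧ n - k ≤ (p.2 : ℕ) with hD
  have h1 : D.card ≤ m * k := by
    have hsub : D ⊆ (univ : Finset (Fin m)).biUnion fun t => D.filter fun p => A t p.1 p.2 = true := by
      intro p hp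
      have hp' := (mem_filter.1 hp).2
      obtain ⟨t, ht⟩ := hcov p.1 p.2 hp'.1
      exact mem_biUnion.2 ⟨t, mem_univ _, mem_filter.2 ⟨hp, ht⟩⟩
    calc D.card ≤ _ := card_le_card hsub
      _ ≤ ∑ t : Fin m, (D.filter fun p => A t p.1 p.2 = true).card := card_biUnion_le
      _ ≤ ∑ t : Fin m, k := by
          refine Finset.sum_le_sum fun t _ => ?_
          rcases hA t with ⟨f, hf⟩ | ⟨f, hf⟩
          · refine le_trans ?_ (fin_lt_card n k hk)
            apply Finset.card_le_card_of_injOn Prod.fst
            · intro p hp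
              have hp1 := mem_filter.1 (mem_coe.1 hp)
              have hp2 := (mem_filter.1 hp1.1).2
              exact mem_coe.2 (mem_filter.2 ⟨mem_univ _, hp2.2.1⟩)
            · intro p hp q hq hpq
              have hp1 := (mem_filter.1 (mem_coe.1 hp)).2
              have hq1 := (mem_filter.1 (mem_coe.1 hq)).2
              rw [hf] at hp1 hq1
              have : p.2 = q.2 := by rw [← hp1, ← hq1, hpq]
              exact Prod.ext hpq this
          · refine le_trans ?_ (fin_ge_card n k hk)
            apply Finset.card_le_card_of_injOn Prod.snd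
            · intro p hp
              have hp1 := mem_filter.1 (mem_coe.1 hp)
              have hp2 := (mem_filter.1 hp1.1).2
              exact mem_coe.2 (mem_filter.2 ⟨mem_univ _, hp2.2.2⟩)
            · intro p hp q hq hpq
              have hp1 := (mem_filter.1 (mem_coe.1 hp)).2
              have hq1 := (mem_filter.1 (mem_coe.1 hq)).2
              have hp3 := (hf p.2 p.1).1 hp1
              have hq3 := (hf q.2 q.1).1 hq1
              have : p.1 = q.1 := by rw [← hp3, ← hq3, hpq]
              exact Prod.ext this hpq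
      _ = m * k := by simp
  have h2 : ((univ : Finset (Fin n × Fin n)).filter fun p => p.1 ≤ p.2).card ≤
      D.card + ((univ : Finset (Fin n × Fin n)).filter fun p => p.1 ≤ p.2 ∧ k ≤ (p.1 : ℕ)).card +
        ((univ : Finset (Fin n × Fin n)).filter fun p => p.1 ≤ p.2 ∧ (p.2 : ℕ) < n - k).card := by
    refine le_trans (card_le_card ?_) ((card_union_le _ _).trans
      (Nat.add_le_add_right (card_union_le _ _) _))
    intro p hp
    simp only [mem_filter, mem_univ, true_and] at hp
    simp only [hD, mem_union, mem_filter, mem_univ, true_and]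
    omega
  have h3 := tri_fin n
  have h4 := low_card n k
  have h5 := left_card n k
  nlinarith

/-! ### The number of pairs `i > j` in `R × C` -/

theorem shift_card (n d : ℕ) (R C : Finset (Fin n)) :
    R.card + C.card - n - d ≤
      ((R ×ˢ C).filter fun p => (p.1 : ℕ) = p.2 + d).card := by
  classical
  set R' : Finset ℕ := R.map Fin.valEmbedding with hR
  set C' : Finset ℕ := C.image (fun j : Fin n => (j : ℕ) + d) with hC
  have hRc : R'.card = R.card := card_map _
  have hCc : C'.card = C.card := by
    apply card_image_of_injective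
    intro a b h
    simp only at h
    exact Fin.ext (by omega)
  have hun : (R' ∪ C').card ≤ n + d := by
    have : R' ∪ C' ⊆ range (n + d) := by
      intro x hx
      rcases mem_union.1 hx with hx | hx
      · obtain ⟨i, _, rfl⟩ := mem_map.1 hx
        simp only [Fin.valEmbedding_apply, mem_range]
        have := i.2
        omega
      · obtain ⟨i, _, rfl⟩ := mem_image.1 hx
        simp only [mem_range]
        have := i.2
        omega
    calc _ ≤ _ := card_le_card this
      _ = _ := card_range _
  have hint : (R' ∩ C').card ≤ ((R ×ˢ C).filter fun p => (p.1 : ℕ) = p.2 + d).card := by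
    have : R' ∩ C' ⊆ (((R ×ˢ C).filter fun p => (p.1 : ℕ) = p.2 + d).image fun p => (p.1 : ℕ)) := by
      intro x hx
      rw [mem_inter] at hx
      obtain ⟨i, hi, rfl⟩ := mem_map.1 hx.1
      obtain ⟨j, hj, hji⟩ := mem_image.1 hx.2
      simp only [Fin.valEmbedding_apply] at hji ⊢
      exact mem_image.2 ⟨(i, j), mem_filter.2 ⟨mem_product.2 ⟨hi, hj⟩, hji.symm⟩, rfl⟩
    exact (card_le_card this).trans card_image_le
  have := card_union_add_card_inter R' C'
  omega

theorem gt_card (n : ℕ) (R C : Finset (Fin n)) :
    (R.card + C.card - n) * (R.card + C.card - n - 1) ≤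
      2 * ((R ×ˢ C).filter fun p => p.2 < p.1).card := by
  classical
  set u := R.card + C.card - n with hu
  have h1 : ∑ d ∈ range (u - 1), (u - 1 - d) ≤ ((R ×ˢ C).filter fun p => p.2 < p.1).card := by
    calc ∑ d ∈ range (u - 1), (u - 1 - d)
        ≤ ∑ d ∈ range (u - 1), ((R ×ˢ C).filter fun p => (p.1 : ℕ) = p.2 + (d + 1)).card := by
          refine Finset.sum_le_sum fun d _ => ?_
          have := shift_card n (d + 1) R C
          omega
      _ = ((range (u - 1)).biUnion fun d =>
            (R ×ˢ C).filter fun p => (p.1 : ℕ) = p.2 + (d + 1)).card := by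
          rw [card_biUnion]
          intro a _ b _ hab
          rw [Function.onFun, Finset.disjoint_left]
          intro p hp hq
          have := (mem_filter.1 hp).2
          have := (mem_filter.1 hq).2
          omega
      _ ≤ _ := by
          apply card_le_card
          intro p hp
          obtain ⟨d, _, hp⟩ := mem_biUnion.1 hp
          have h2 := mem_filter.1 hp
          refine mem_filter.2 ⟨h2.1, ?_⟩
          rw [Fin.lt_def]
          omega
  have h2 : (∑ d ∈ range (u - 1), (u - 1 - d)) * 2 = u * (u - 1) := by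
    rcases Nat.eq_zero_or_pos u with h0 | h0
    · rw [h0]; rfl
    · obtain ⟨v, hv⟩ : ∃ v, u = v + 1 := ⟨u - 1, by omega⟩
      rw [hv, Nat.add_sub_cancel]
      have : ∑ d ∈ range v, (v - d) = ∑ d ∈ range v, (d + 1) := by
        rw [← Finset.sum_range_reflect]
        refine Finset.sum_congr rfl fun d hd => ?_
        rw [mem_range] at hd
        omega
      rw [this, Finset.sum_add_distrib, Finset.sum_const, card_range, smul_eq_mul, mul_one, add_mul,
        Finset.sum_range_id_mul_two]
      rcases v with _ | v
      · rfl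
      · simp only [Nat.add_sub_cancel]; ring
  calc u * (u - 1) = 2 * ∑ d ∈ range (u - 1), (u - 1 - d) := by rw [← h2]; ring
    _ ≤ _ := Nat.mul_le_mul_left _ h1

theorem le_card (n : ℕ) (R C : Finset (Fin n)) :
    2 * ((R ×ˢ C).filter fun p => p.1 ≤ p.2).card +
      (R.card + C.card - n) * (R.card + C.card - n - 1) ≤ 2 * (R.card * C.card) := by
  classical
  have h1 := gt_card n R C
  have h2 : ((R ×ˢ C).filter fun p => p.1 ≤ p.2).card +
      ((R ×ˢ C).filter fun p => p.2 < p.1).card = (R ×ˢ C).card := by
    rw [← Finset.card_filter_add_card_filter_not (s := R ×ˢ C) (fun p => p.1 ≤ p.2)]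
    simp only [not_le]
  rw [card_product] at h2
  omega

/-! ### The arithmetic inequality -/

theorem arith (n s a b r c : ℤ) (hn : 1 ≤ n) (hs0 : 0 ≤ s) (hs : s * s ≤ n ^ 2 + (n + 1) ^ 2)
    (hab : a + b = 2 * n + 1 - s) (hba : b = a ∨ b = a + 1) (hr : 0 ≤ r) (hc : 0 ≤ c)
    (hu : n ≤ r + c) :
    2 * (r * c) - (r + c - n) * (r + c - n - 1) ≤ 2 * (a * r + b * c) := by
  -- with `σ = r + c`, `δ = r - c`
  have key : ∀ ε : ℤ, b = a + ε → (ε = 0 ∨ ε = 1) →
      -(r + c - s) ^ 2 + s * s - 2 * n * (n + 1) ≤ (r - c - ε) ^ 2 - ε := by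
    intro ε hε hε01
    have hpar : ∃ q, s = 2 * q + 1 - ε := ⟨n - a, by omega⟩
    obtain ⟨q, hq⟩ := hpar
    have hs' : s * s ≤ 2 * n * (n + 1) + 1 := by nlinarith
    obtain ⟨w, hw⟩ : ∃ w, n * (n + 1) = 2 * w := by
      rcases Int.even_mul_succ_self n with ⟨w, hw⟩
      exact ⟨w, by linarith⟩
    have hs'' : s * s ≤ 4 * w + 1 := by nlinarith
    rcases lt_trichotomy (r + c) s with h | h | h
    · rcases hε01 with h0 | h0
      · subst h0
        nlinarith [sq_nonneg (r - c), mul_self_nonneg (s - (r + c) - 1)]
      · subst h0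
        by_cases h1 : s - (r + c) = 1
        · have h2 : s * s ≤ 4 * w := by
            rw [hq] at hs'' ⊢
            by_contra h3
            push Not at h3
            have : (2 * q + 1 - 1) * (2 * q + 1 - 1) = 4 * (q * q) := by ring
            rw [this] at hs'' h3
            omega
          nlinarith [sq_nonneg (r - c - 1)]
        · have h2 : 2 ≤ s - (r + c) := by omega
          nlinarith [sq_nonneg (r - c - 1)]
    · rcases hε01 with h0 | h0
      · subst h0
        have h1 : (1 : ℤ) ≤ (r - c) ^ 2 := by
          have : r - c ≠ 0 := by omega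
          have := sq_pos_of_ne_zero this
          omega
        nlinarith
      · subst h0
        have h2 : s * s ≤ 4 * w := by
          rw [hq] at hs'' ⊢
          by_contra h3
          push Not at h3
          have : (2 * q + 1 - 1) * (2 * q + 1 - 1) = 4 * (q * q) := by ring
          rw [this] at hs'' h3
          omega
        have h1 : (1 : ℤ) ≤ (r - c - 1) ^ 2 := by
          have : r - c - 1 ≠ 0 := by omega
          have := sq_pos_of_ne_zero this
          omega
        nlinarith
    · rcases hε01 with h0 | h0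
      · subst h0
        nlinarith [sq_nonneg (r - c)]
      · subst h0
        by_cases h1 : (r + c) - s = 1
        · have h2 : s * s ≤ 4 * w := by
            rw [hq] at hs'' ⊢
            by_contra h3
            push Not at h3
            have : (2 * q + 1 - 1) * (2 * q + 1 - 1) = 4 * (q * q) := by ring
            rw [this] at hs'' h3
            omega
          nlinarith [sq_nonneg (r - c - 1)]
        · have h2 : 2 ≤ (r + c) - s := by omega
          nlinarith [sq_nonneg (r - c - 1)]
  rcases hba with h | h
  · have h1 := key 0 (by omega) (Or.inl rfl)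
    have h2 : 2 * a = 2 * n + 1 - s := by omega
    subst h
    have h3 : 4 * (b * r + b * c) = 2 * (r + c) * (2 * n + 1 - s) := by rw [← h2]; ring
    nlinarith
  · have h1 := key 1 (by omega) (Or.inr rfl)
    have h2 : 2 * a + 1 = 2 * n + 1 - s := by omega
    subst h
    have h3 : 4 * (a * r + (a + 1) * c) = 2 * (r + c) * (2 * n + 1 - s) - 2 * (r - c) := by
      rw [← h2]; ring
    nlinarith

theorem arith' (n s a b r c : ℤ) (hn : 1 ≤ n) (hs0 : 0 ≤ s) (hs : s * s ≤ n ^ 2 + (n + 1) ^ 2)
    (hab : a + b = 2 * n + 1 - s) (hba : b = a ∨ b = a + 1) (hr : 0 ≤ r) (hc : 0 ≤ c)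
    (hu : r + c ≤ n) :
    r * c ≤ a * r + b * c := by
  have hsn : 2 * s ≤ 3 * n + 1 := by
    by_contra h
    push Not at h
    nlinarith
  have hm : n + 1 ≤ 2 * (a + b) := by omega
  rcases hba with h | h
  · subst h
    have h2 : r + c ≤ 4 * b := by omega
    nlinarith [sq_nonneg (r - c), mul_nonneg (add_nonneg hr hc) (sub_nonneg.2 h2)]
  · subst h
    have h2 : r + c ≤ 2 * (2 * a + 1) - 1 := by omega
    nlinarith [sq_nonneg (r - c - 1), mul_nonneg (add_nonneg hr hc) (sub_nonneg.2 h2)]

theorem hall_ineq (n a b : ℕ) (hn : 1 ≤ n)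
    (hab : a + b = 2 * n + 1 - Nat.sqrt (n ^ 2 + (n + 1) ^ 2)) (hba : b = a ∨ b = a + 1)
    (R C : Finset (Fin n)) :
    ((R ×ˢ C).filter fun p => p.1 ≤ p.2).card ≤ a * R.card + b * C.card := by
  have h1 := le_card n R C
  set s := Nat.sqrt (n ^ 2 + (n + 1) ^ 2) with hs
  have hs2 : s * s ≤ n ^ 2 + (n + 1) ^ 2 := Nat.sqrt_le _
  have hs3 : s ≤ 2 * n + 1 := by nlinarith
  set e := ((R ×ˢ C).filter fun p => p.1 ≤ p.2).card with he
  have habZ : (a : ℤ) + b = 2 * n + 1 - s := by omega
  have hbaZ : (b : ℤ) = a ∨ (b : ℤ) = a + 1 := by omega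
  rcases le_total (R.card + C.card) n with hu | hu
  · have h2 := arith' n s a b R.card C.card (by exact_mod_cast hn) (Int.natCast_nonneg _)
      (by exact_mod_cast hs2) habZ hbaZ (Int.natCast_nonneg _) (Int.natCast_nonneg _)
      (by exact_mod_cast hu)
    have h3 : R.card * C.card ≤ a * R.card + b * C.card := by exact_mod_cast h2
    omega
  · have h2 := arith n s a b R.card C.card (by exact_mod_cast hn) (Int.natCast_nonneg _)
      (by exact_mod_cast hs2) habZ hbaZ (Int.natCast_nonneg _) (Int.natCast_nonneg _)
      (by exact_mod_cast hu)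
    rcases Nat.eq_or_lt_of_le hu with hu' | hu'
    · have h4 : R.card + C.card - n = 0 := by omega
      rw [h4] at h1
      simp only [zero_mul, add_zero] at h1
      have h5 : (R.card : ℤ) + C.card - n = 0 := by omega
      rw [h5] at h2
      have h3 : 2 * (R.card * C.card) ≤ 2 * (a * R.card + b * C.card) := by
        zify
        linarith
      omega
    · have h3 : ((R.card + C.card - n : ℕ) : ℤ) = R.card + C.card - n := by omega
      have h4 : ((R.card + C.card - n - 1 : ℕ) : ℤ) = R.card + C.card - n - 1 := by omega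
      zify at h1 ⊢
      rw [h3, h4] at h1
      linarith

/-! ### The construction -/

theorem upper (n a b : ℕ)
    (hH : ∀ R C : Finset (Fin n),
      ((R ×ˢ C).filter fun p => p.1 ≤ p.2).card ≤ a * R.card + b * C.card) :
    Covers n (a + b) := by
  classical
  let ι := {p : Fin n × Fin n // p.1 ≤ p.2}
  let t : ι → Finset ((Fin n × Fin a) ⊕ (Fin n × Fin b)) := fun p =>
    (({p.1.1} : Finset (Fin n)) ×ˢ (univ : Finset (Fin a))).disjSum
      (({p.1.2} : Finset (Fin n)) ×ˢ (univ : Finset (Fin b)))
  have hall : ∀ S : Finset ι, S.card ≤ (S.biUnion t).card := by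
    intro S
    set R := S.image fun p => p.1.1 with hR
    set C := S.image fun p => p.1.2 with hC
    have h1 : S.card ≤ ((R ×ˢ C).filter fun p => p.1 ≤ p.2).card := by
      apply Finset.card_le_card_of_injOn (fun p => p.1)
      · intro p hp
        rw [mem_coe] at hp ⊢
        exact mem_filter.2 ⟨mem_product.2 ⟨mem_image_of_mem _ hp, mem_image_of_mem _ hp⟩, p.2⟩
      · intro p _ q _ h
        exact Subtype.ext h
    have h2 : ((R ×ˢ (univ : Finset (Fin a))).disjSum (C ×ˢ (univ : Finset (Fin b)))).card ≤
        (S.biUnion t).card := by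
      apply card_le_card
      intro x hx
      rw [mem_disjSum] at hx
      rcases hx with ⟨y, hy, rfl⟩ | ⟨y, hy, rfl⟩
      · obtain ⟨p, hp, hpy⟩ := mem_image.1 (mem_product.1 hy).1
        refine mem_biUnion.2 ⟨p, hp, ?_⟩
        rw [mem_disjSum]
        left
        refine ⟨y, ?_, rfl⟩
        rw [mem_product]
        exact ⟨mem_singleton.2 hpy.symm, mem_univ _⟩
      · obtain ⟨p, hp, hpy⟩ := mem_image.1 (mem_product.1 hy).1
        refine mem_biUnion.2 ⟨p, hp, ?_⟩
        rw [mem_disjSum]
        right
        refine ⟨y, ?_, rfl⟩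
        rw [mem_product]
        exact ⟨mem_singleton.2 hpy.symm, mem_univ _⟩
    rw [card_disjSum, card_product, card_product, card_univ, card_univ, Fintype.card_fin,
      Fintype.card_fin] at h2
    have h3 := hH R C
    have h4 : R.card * a = a * R.card := mul_comm _ _
    have h5 : C.card * b = b * C.card := mul_comm _ _
    omega
  obtain ⟨f, hf, hft⟩ := (Finset.all_card_le_biUnion_card_iff_exists_injective t).1 hall
  -- transformations
  let F : Fin a → Fin n → Fin n := fun x i =>
    if h : ∃ p : ι, f p = Sum.inl (i, x) then (Classical.choose h).1.2 else i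
  let G : Fin b → Fin n → Fin n := fun y j =>
    if h : ∃ p : ι, f p = Sum.inr (j, y) then (Classical.choose h).1.1 else j
  let MF : Fin a → Matrix (Fin n) (Fin n) Bool := fun x => Matrix.of fun i j => decide (F x i = j)
  let MG : Fin b → Matrix (Fin n) (Fin n) Bool := fun y => Matrix.of fun i j => decide (G y j = i)
  refine ⟨Fin.append MF MG, ?_, ?_⟩
  · intro t
    refine Fin.addCases (fun x => ?_) (fun y => ?_) t
    · left
      refine ⟨F x, fun i j => ?_⟩
      rw [Fin.append_left]
      simp [MF]
    · right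
      refine ⟨G y, fun i j => ?_⟩
      rw [Fin.append_right]
      simp [MG, Matrix.transpose_apply]
  · intro i j hij
    let p : ι := ⟨(i, j), hij⟩
    have hp := hft p
    rw [mem_disjSum] at hp
    rcases hp with ⟨⟨i', x⟩, hy, hfp⟩ | ⟨⟨j', y⟩, hy, hfp⟩
    · have hi : i' = i := mem_singleton.1 (mem_product.1 hy).1
      subst hi
      refine ⟨Fin.castAdd b x, ?_⟩
      rw [Fin.append_left]
      have h : ∃ p : ι, f p = Sum.inl (i', x) := ⟨p, hfp.symm⟩
      have h1 : Classical.choose h = p := hf ((Classical.choose_spec h).trans hfp)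
      have h2 : F x i' = j := by
        simp only [F]
        rw [dif_pos h, h1]
      simpa [MF] using h2
    · have hi : j' = j := mem_singleton.1 (mem_product.1 hy).1
      subst hi
      refine ⟨Fin.natAdd a y, ?_⟩
      rw [Fin.append_right]
      have h : ∃ p : ι, f p = Sum.inr (j', y) := ⟨p, hfp.symm⟩
      have h1 : Classical.choose h = p := hf ((Classical.choose_spec h).trans hfp)
      have h2 : G y j' = i := by
        simp only [G]
        rw [dif_pos h, h1]
      simpa [MG] using h2

theorem lower (n m : ℕ) (hn : 1 ≤ n) (h : Covers n m) :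
    2 * n + 1 - Nat.sqrt (n ^ 2 + (n + 1) ^ 2) ≤ m := by
  set s := Nat.sqrt (n ^ 2 + (n + 1) ^ 2) with hs
  have hs2 : s * s ≤ n ^ 2 + (n + 1) ^ 2 := Nat.sqrt_le _
  have hs1 : n ^ 2 + (n + 1) ^ 2 < (s + 1) * (s + 1) := Nat.lt_succ_sqrt _
  have hs3 : s ≤ 2 * n := by nlinarith
  by_contra hlt
  push Not at hlt
  have hm : m + s ≤ 2 * n := by omega
  set k := (s + 1) / 2 with hk
  have hkn : k ≤ n := by omega
  have h1 := lower_aux n m k hkn h
  obtain ⟨l, hl⟩ : ∃ l, n = k + l := ⟨n - k, by omega⟩
  have h2 : n - k = l := by omega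
  rw [h2] at h1
  -- k * (s + 1 - k) > n (n + 1) / 2
  have h3 : n * (n + 1) < 2 * (k * (s + 1 - k)) := by
    rcases Nat.even_or_odd' s with ⟨q, hq | hq⟩
    · have hk' : k = q := by omega
      have : s + 1 - k = q + 1 := by omega
      rw [this, hk']
      rw [hq] at hs1
      nlinarith
    · have hk' : k = q + 1 := by omega
      have : s + 1 - k = q + 1 := by omega
      rw [this, hk']
      rw [hq] at hs1
      nlinarith
  obtain ⟨v, hv⟩ : ∃ v, s + 1 = k + v := ⟨s + 1 - k, by omega⟩
  have h4 : s + 1 - k = v := by omega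
  rw [h4] at h3
  have h5 : m + v ≤ k + 2 * l + 1 := by omega
  nlinarith [Nat.mul_le_mul_left k h5]

theorem result : ∀ n : ℕ, 1 ≤ n →
    IsLeast {k : ℕ | Covers n k} (2 * n + 1 - Nat.sqrt (n ^ 2 + (n + 1) ^ 2)) := by
  intro n hn
  constructor
  · set m := 2 * n + 1 - Nat.sqrt (n ^ 2 + (n + 1) ^ 2) with hm
    have h := upper n (m / 2) (m - m / 2)
      (hall_ineq n (m / 2) (m - m / 2) hn (by omega) (by omega))
    have h2 : m / 2 + (m - m / 2) = m := by omega
    rw [h2] at h
    exact h
  · intro m hm
    exact lower n m hn hm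

end Pool.Agent.Results.MP_88b6d1_co.ExactValue
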